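import Pool.Agent.PSS.StmtsS0
import Pool.Agent.PFC.B4.Key

/-!
# Squad PSS, row FCO: coefficients of the elements of the Brauer kernel at fixed points
-/

set_option autoImplicit false

open scoped BigOperators TensorProduct

namespace Pool.Agent.PSS.S0.H92

open Pool.Agent.PFC (tw IsTv)
open Pool.Agent.PFD.D2b (FrR)

theorem fco : FcoStmt := by
  intro ℓ _ R H M Ω _ _ _ _ _ _ _ ρ b c hℓ hH hfr P m hm ω hω
  obtain ⟨-, hc, -⟩ := hfr
  unfold BKR at hm
  induction hm using Submodule.span_induction with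
  | mem n hn =>
    obtain ⟨P', S, m, hlt, hS, -, rfl⟩ := hn
    have h1 : ∀ x ∈ S, c ω (ρ x m) = c ω m := by
      intro x hx
      have h2 : x⁻¹ • ω = ω := hω _ (P.inv_mem (hS.1 x hx))
      have h3 := hc x (x⁻¹ • ω) m
      rw [smul_inv_smul] at h3
      rw [h3, h2]
    rw [map_sum, Finset.sum_congr rfl h1, Finset.sum_const, nsmul_eq_mul]
    have hcard := Pool.Agent.PFC.card_tv P' P hlt.le S hS
    have hP : IsPGroup ℓ P := hH.to_subgroup P
    obtain ⟨k, hk⟩ := (IsPGroup.iff_card).1 hP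
    have hdiv : S.card ∣ ℓ ^ k := ⟨_, by rw [← hk]; exact hcard.symm⟩
    obtain ⟨j, -, hj⟩ := (Nat.dvd_prime_pow (Fact.out : ℓ.Prime)).1 hdiv
    rcases Nat.eq_zero_or_pos j with h0 | h0
    · exfalso
      rw [h0, pow_zero] at hj
      rw [hj, one_mul] at hcard
      exact hlt.ne (Subgroup.eq_of_le_of_card_ge hlt.le hcard.ge)
    · rw [hj, Nat.cast_pow, hℓ, zero_pow h0.ne', zero_mul]
  | zero => exact map_zero _
  | add a b _ _ ha hb => rw [map_add, ha, hb, add_zero]
  | smul r a _ ha => rw [map_smul, ha, smul_zero]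

end Pool.Agent.PSS.S0.H92
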