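import Pool.Agent.PSS.StmtsS3

/-!
# Squad PSS, row BLS: the relative traces vanish on a block with defect group `Q`
-/

set_option autoImplicit false

open scoped BigOperators TensorProduct PowerSeries

noncomputable section

namespace Pool.Agent.PSS.S3.H92

open Pool.Agent.PFC (tw IsTv)
open Pool.Agent.PFD.D2b (FrR)
open Pool.Agent.PSS.S0

section
variable {R W C : Type} [CommRing R] [CommGroup W] [Ring C] [Algebra R C] {γ : W →* C}
  {Q : Subgroup W}

theorem mem_cwQ {a : C} : a ∈ FxR (cw R γ) Q ↔ ∀ q ∈ Q, γ q * a = a * γ q := by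
  constructor
  · intro h q hq
    have h1 : γ q * (a * γ q⁻¹) = a := h q hq
    calc γ q * a = γ q * (a * γ q⁻¹) * γ q := by
          rw [mul_assoc, mul_assoc, ← map_mul, inv_mul_cancel, map_one, mul_one]
      _ = a * γ q := by rw [h1]
  · intro h q hq
    change γ q * (a * γ q⁻¹) = a
    rw [← mul_assoc, h q hq, mul_assoc, ← map_mul, mul_inv_cancel, map_one, mul_one]

theorem ga_mem (v : W) : γ v ∈ FxR (cw R γ) Q := by
  rw [mem_cwQ]
  intro q _
  rw [← map_mul, ← map_mul, mul_comm]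

theorem mul_mem_cw {a b : C} (ha : a ∈ FxR (cw R γ) Q) (hb : b ∈ FxR (cw R γ) Q) :
    a * b ∈ FxR (cw R γ) Q := by
  rw [mem_cwQ] at ha hb ⊢
  intro q hq
  rw [← mul_assoc, ha q hq, mul_assoc, hb q hq, mul_assoc]

theorem cw_mem {m : C} (hm : m ∈ FxR (cw R γ) Q) (v : W) :
    cw R γ v m ∈ FxR (cw R γ) Q := by
  change γ v * (m * γ v⁻¹) ∈ FxR (cw R γ) Q
  exact mul_mem_cw (ga_mem v) (mul_mem_cw hm (ga_mem v⁻¹))

variable {B : Type} [Ring B] [Algebra R B] {γB : W →* B} {β : C → B}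

theorem bq_sum (hb : IsBQ R γ Q γB β) (s : Finset W) (g : W → C)
    (hg : ∀ x ∈ s, g x ∈ FxR (cw R γ) Q) : β (∑ x ∈ s, g x) = ∑ x ∈ s, β (g x) := by
  classical
  induction s using Finset.induction_on with
  | empty =>
    rw [Finset.sum_empty, Finset.sum_empty]
    exact (hb.ker 0 (Submodule.zero_mem _)).mpr (Submodule.zero_mem _)
  | insert x s hx ih =>
    rw [Finset.sum_insert hx, Finset.sum_insert hx,
      hb.add _ (hg x (Finset.mem_insert_self x s)) _
        (Submodule.sum_mem _ fun y hy => hg y (Finset.mem_insert_of_mem hy)),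
      ih fun y hy => hg y (Finset.mem_insert_of_mem hy)]

theorem bq_eq (hb : IsBQ R γ Q γB β) {a b : C} (ha : a ∈ FxR (cw R γ) Q)
    (hb' : b ∈ FxR (cw R γ) Q) (h : a - b ∈ BKR (cw R γ) Q) : β a = β b := by
  have h1 : a - b ∈ FxR (cw R γ) Q := Submodule.sub_mem _ ha hb'
  have h2 : β (a - b) = 0 := (hb.ker _ h1).mpr h
  have h3 := hb.add _ h1 _ hb'
  rw [sub_add_cancel, h2, zero_add] at h3
  exact h3

theorem bq_q (hb : IsBQ R γ Q γB β) {q : W} (hq : q ∈ Q) (y : B) : γB q * y = y * γB q := by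
  obtain ⟨a, ha, rfl⟩ := hb.surj y
  rw [← hb.om, ← hb.mul _ (ga_mem q) _ ha, ← hb.mul _ ha _ (ga_mem q), mem_cwQ.mp ha q hq]

theorem bq_cw (hb : IsBQ R γ Q γB β) {m : C} (hm : m ∈ FxR (cw R γ) Q) (v : W) :
    β (cw R γ v m) = γB v * β m * γB v⁻¹ := by
  change β (γ v * (m * γ v⁻¹)) = _
  rw [hb.mul _ (ga_mem v) _ (mul_mem_cw hm (ga_mem v⁻¹)), hb.mul _ hm _ (ga_mem v⁻¹), hb.om,
    hb.om, mul_assoc]

/-- the conjugates of an element of `B` -/
def cj (γB : W →* B) (c : B) (g : W ⧸ Q) : B := γB g.out * c * γB (g.out)⁻¹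

theorem cj_mk (hq : ∀ q ∈ Q, ∀ y : B, γB q * y = y * γB q) (c : B) (t : W) :
    cj γB c (t : W ⧸ Q) = γB t * c * γB t⁻¹ := by
  unfold cj
  obtain ⟨h, hh⟩ := QuotientGroup.mk_out_eq_mul Q t
  rw [hh, mul_inv_rev, map_mul, map_mul, mul_assoc (γB t), hq h h.2 c]
  have h1 : γB (h : W) * γB (h : W)⁻¹ = 1 := by
    rw [← map_mul, mul_inv_cancel, map_one]
  calc γB t * (c * γB (h : W)) * (γB (h : W)⁻¹ * γB t⁻¹)
      = γB t * c * (γB (h : W) * γB (h : W)⁻¹) * γB t⁻¹ := by simp only [mul_assoc]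
    _ = _ := by rw [h1, mul_one]

theorem cj_sum [Fintype (W ⧸ Q)] (hq : ∀ q ∈ Q, ∀ y : B, γB q * y = y * γB q) (c : B)
    {S : Finset W} (hS : IsTv Q ⊤ S) :
    ∑ g : W ⧸ Q, cj γB c g = ∑ t ∈ S, γB t * c * γB t⁻¹ := by
  symm
  refine Finset.sum_bij (fun t _ => (t : W ⧸ Q)) (fun _ _ => Finset.mem_univ _) ?_ ?_ ?_
  · intro s hs s' hs' h
    have h1 : s⁻¹ * s' ∈ Q := QuotientGroup.eq.mp h
    obtain ⟨u, -, hu⟩ := hS.2 s' (Subgroup.mem_top _)
    have h2 : s = u := hu s ⟨hs, h1⟩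
    have h3 : s' = u := hu s' ⟨hs', by rw [inv_mul_cancel]; exact Q.one_mem⟩
    rw [h2, h3]
  · intro g _
    obtain ⟨s, ⟨hs, hs2⟩, -⟩ := hS.2 g.out (Subgroup.mem_top _)
    refine ⟨s, hs, ?_⟩
    rw [← QuotientGroup.out_eq' g]
    exact QuotientGroup.eq.mpr hs2
  · intro t _
    exact (cj_mk hq c t).symm

end

theorem bls (van : VanStmt) (ftr : FtrStmt) (rfs : RfsStmt) (trs : TrsStmt) : BlsStmt := by
  intro ℓ _ R W E C B K _ _ _ _ _ _ _ _ _ ψ γ Q γB β lamB xB yB e w hℓ hp hper hb hrf he hee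
    hec hbk hw
  classical
  obtain ⟨Ω, _, _, b, c, hfr, -⟩ := hper
  let act : MulAction W Ω :=
    MulAction.compHom Ω (MonoidHom.prod (MonoidHom.id W) (MonoidHom.id W))
  have hfr' : FrR (cw R γ) b c :=
    ⟨fun g t => hfr.1 (g, g) t, fun g t n => hfr.2.1 (g, g) t n, hfr.2.2⟩
  obtain ⟨m, hm, S, hS, hem⟩ := ftr ℓ R W C Ω (cw R γ) b c hℓ hp hfr' Q e he hbk
  have heQ : e ∈ FxR (cw R γ) Q := fun q _ => he q (Subgroup.mem_top q)
  have hq : ∀ q ∈ Q, ∀ y : B, γB q * y = y * γB q := fun q hq y => bq_q hb hq y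
  have hcen : ∀ y : B, β e * y = y * β e := by
    intro y
    obtain ⟨a, ha, rfl⟩ := hb.surj y
    rw [← hb.mul _ heQ _ ha, ← hb.mul _ ha _ heQ]
    exact bq_eq hb (mul_mem_cw heQ ha) (mul_mem_cw ha heQ) (hec a ha)
  have hid : β e * β e = β e := by
    rw [← hb.mul _ heQ _ heQ]
    exact bq_eq hb (mul_mem_cw heQ heQ) heQ hee
  have hsm : β e = ∑ t ∈ S, γB t * β m * γB t⁻¹ := by
    rw [bq_eq hb heQ (Submodule.sum_mem _ fun x _ => cw_mem hm x) hem,
      bq_sum hb S _ fun x _ => cw_mem hm x]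
    exact Finset.sum_congr rfl fun x _ => bq_cw hb hm x
  set cc : B := β m * β e with hcc
  have hcS : ∑ t ∈ S, γB t * cc * γB t⁻¹ = β e := by
    calc ∑ t ∈ S, γB t * cc * γB t⁻¹ = ∑ t ∈ S, (γB t * β m * γB t⁻¹) * β e := by
          refine Finset.sum_congr rfl fun t _ => ?_
          rw [hcc, mul_assoc, mul_assoc (β m), hcen, ← mul_assoc (β m), ← mul_assoc, ← mul_assoc]
      _ = β e := by rw [← Finset.sum_mul, ← hsm, hid]
  have hce : cc * β e = cc := by rw [hcc, mul_assoc, hid]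
  -- the trace map
  have hrf' := rfs R W B K γB lamB xB yB Q S hrf hS
  have hall : ∀ y : B, y ∈ FxR (cw R (γB.comp Q.subtype)) ⊤ := by
    intro y
    rw [mem_cwQ]
    intro q _
    exact hq q q.2 y
  have htr := trs R Q B (K × S) (γB.comp Q.subtype) lamB _ _ hrf'
  let f : B →+ B :=
    { toFun := fun z => ∑ p : K × S, xB p.1 * γB p.2 * z * (γB (p.2 : W)⁻¹ * yB p.1)
      map_zero' := by simp
      map_add' := by
        intro a a'
        simp only [mul_add, add_mul, Finset.sum_add_distrib] }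
  have hf : ∀ z, f z = ∑ p : K × S, xB p.1 * γB p.2 * z * (γB (p.2 : W)⁻¹ * yB p.1) :=
    fun z => rfl
  have hfs : ∀ x y, f (x * y) = f (y * x) := by
    intro x y
    rw [hf, hf]
    exact htr x (hall x) y (hall y)
  have hz : ∀ z : B, ℓ • z = 0 := by
    intro z
    rw [← Nat.cast_smul_eq_nsmul R, hℓ, zero_smul]
  have hv := van ℓ W (W ⧸ Q) B B γB (QuotientGroup.mk' Q) (cj γB cc) f (hp.to_quotient Q) hz hfs
    (QuotientGroup.mk'_surjective Q) ?_ ?_ w ?_
  · have h1 : cj γB cc (1 : W ⧸ Q) = cc := by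
      have h2 := cj_mk hq cc (1 : W)
      rw [map_one, one_mul, inv_one, map_one, mul_one] at h2
      exact h2
    rw [h1, hf, Fintype.sum_prod_type] at hv
    rw [← hv, Finset.mul_sum]
    refine Finset.sum_congr rfl fun k _ => ?_
    calc β e * (xB k * γB w * yB k) = xB k * γB w * β e * yB k := by
          rw [← mul_assoc, hcen]
      _ = xB k * γB w * (∑ t ∈ S, γB t * cc * γB t⁻¹) * yB k := by rw [hcS]
      _ = ∑ t ∈ S, xB k * γB t * (γB w * cc) * (γB (t : W)⁻¹ * yB k) := by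
          rw [Finset.mul_sum, Finset.sum_mul]
          refine Finset.sum_congr rfl fun t _ => ?_
          have h3 : γB w * γB t = γB t * γB w := by rw [← map_mul, ← map_mul, mul_comm]
          calc xB k * γB w * (γB t * cc * γB t⁻¹) * yB k
              = xB k * (γB w * γB t) * cc * γB t⁻¹ * yB k := by simp only [mul_assoc]
            _ = xB k * (γB t * γB w) * cc * γB t⁻¹ * yB k := by rw [h3]
            _ = _ := by simp only [mul_assoc]
      _ = _ := (Finset.sum_coe_sort S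
          (fun t => xB k * γB t * (γB w * cc) * (γB (t : W)⁻¹ * yB k))).symm
  · intro v g
    obtain ⟨t, rfl⟩ := QuotientGroup.mk_surjective g
    have h1 : QuotientGroup.mk' Q v * (t : W ⧸ Q) = ((v * t : W) : W ⧸ Q) := rfl
    rw [h1, cj_mk hq, cj_mk hq, mul_inv_rev, map_mul, map_mul]
    simp only [mul_assoc]
  · rw [cj_sum hq cc hS, hcS]
    have h2 := cj_mk hq cc (1 : W)
    rw [map_one, one_mul, inv_one, map_one, mul_one] at h2
    have h3 : cj γB cc (1 : W ⧸ Q) = cc := h2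
    rw [h3, hce]
  · intro h
    exact hw ((QuotientGroup.eq_one_iff w).mp h)

end Pool.Agent.PSS.S3.H92
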