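import Pool.Agent.PSS.StmtsS1c

/-!
# Squad PSS, row TRA: the trivialised product is a deformation
-/

set_option autoImplicit false

open scoped BigOperators TensorProduct

namespace Pool.Agent.PSS.H92

open Pool.Agent.PFD.D2 (Cdv FibG)
open Pool.Agent.PFD.D2b (FrR)
open Finset

/-- associativity of the sums over antidiagonals -/
theorem ad3 {M : Type} [AddCommMonoid M] (n : ℕ) (T : ℕ → ℕ → ℕ → M) :
    ∑ p ∈ antidiagonal n, ∑ q ∈ antidiagonal p.1, T q.1 q.2 p.2 =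
    ∑ p ∈ antidiagonal n, ∑ q ∈ antidiagonal p.2, T p.1 q.1 q.2 := by
  rw [Finset.sum_sigma' (antidiagonal n) (fun p => antidiagonal p.1)
      (fun p q => T q.1 q.2 p.2),
    Finset.sum_sigma' (antidiagonal n) (fun p => antidiagonal p.2)
      (fun p q => T p.1 q.1 q.2)]
  refine Finset.sum_nbij'
    (i := fun x => ⟨(x.2.1, x.2.2 + x.1.2), (x.2.2, x.1.2)⟩)
    (j := fun x => ⟨(x.1.1 + x.2.1, x.2.2), (x.1.1, x.2.1)⟩) ?_ ?_ ?_ ?_ ?_
  · rintro ⟨⟨a, b⟩, ⟨c, d⟩⟩ h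
    simp only [mem_sigma, Finset.HasAntidiagonal.mem_antidiagonal] at h ⊢
    refine ⟨?_, trivial⟩
    omega
  · rintro ⟨⟨a, b⟩, ⟨c, d⟩⟩ h
    simp only [mem_sigma, Finset.HasAntidiagonal.mem_antidiagonal] at h ⊢
    refine ⟨?_, trivial⟩
    omega
  · rintro ⟨⟨a, b⟩, ⟨c, d⟩⟩ h
    simp only [mem_sigma, Finset.HasAntidiagonal.mem_antidiagonal] at h
    obtain ⟨h1, h2⟩ := h
    subst h2
    rfl
  · rintro ⟨⟨a, b⟩, ⟨c, d⟩⟩ h
    simp only [mem_sigma, Finset.HasAntidiagonal.mem_antidiagonal] at h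
    obtain ⟨h1, h2⟩ := h
    subst h2
    rfl
  · rintro ⟨⟨a, b⟩, ⟨c, d⟩⟩ h
    rfl

section
variable {K V B : Type} [Field K] [CommGroup V] [Ring B] [Algebra K B] {β : V →* B}
  {W : Subgroup V} {P : ℕ → (B →ₗ[K] B)} {m : ℕ → (B →ₗ[K] B →ₗ[K] B)}

/-- injectivity of `e ↦ ∑ P i (e j)` -/
theorem inj_seq (h0 : P 0 = LinearMap.id) {e e' : ℕ → B}
    (h : ∀ n, ∑ p ∈ antidiagonal n, P p.1 (e p.2) = ∑ p ∈ antidiagonal n, P p.1 (e' p.2)) :
    ∀ n, e n = e' n := by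
  intro n
  induction n using Nat.strong_induction_on with
  | _ n ih =>
    have hm : ((0, n) : ℕ × ℕ) ∈ antidiagonal n := by
      rw [Finset.HasAntidiagonal.mem_antidiagonal]
      exact zero_add n
    have h1 := h n
    rw [← Finset.add_sum_erase _ _ hm, ← Finset.add_sum_erase (antidiagonal n)
      (fun p => P p.1 (e' p.2)) hm] at h1
    have h2 : ∑ p ∈ (antidiagonal n).erase (0, n), P p.1 (e p.2) =
        ∑ p ∈ (antidiagonal n).erase (0, n), P p.1 (e' p.2) := by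
      refine Finset.sum_congr rfl fun p hp => ?_
      obtain ⟨hne, hp2⟩ := Finset.mem_erase.mp hp
      rw [Finset.HasAntidiagonal.mem_antidiagonal] at hp2
      have h3 : p.2 < n := by
        rcases Nat.eq_zero_or_pos p.1 with h4 | h4
        · exfalso
          apply hne
          refine Prod.ext h4 ?_
          show p.2 = n
          omega
        · omega
      rw [ih p.2 h3]
    rw [h2] at h1
    have h5 := add_right_cancel h1
    rw [h0] at h5
    exact h5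

theorem tr_m0 (ht : Trv β W P m) (x y : B) : m 0 x y = x * y := by
  have h := ht.pm 0 x y
  rw [Finset.Nat.antidiagonal_zero, Finset.sum_singleton, Finset.sum_singleton, ht.p0] at h
  exact h.symm

theorem tr_ass (ht : Trv β W P m) (n : ℕ) (x y z : B) :
    ∑ p ∈ antidiagonal n, m p.1 (m p.2 x y) z = ∑ p ∈ antidiagonal n, m p.1 x (m p.2 y z) := by
  refine inj_seq (P := P) (e := fun n => ∑ p ∈ antidiagonal n, m p.1 (m p.2 x y) z)
    (e' := fun n => ∑ p ∈ antidiagonal n, m p.1 x (m p.2 y z)) ht.p0 ?_ n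
  intro n
  have h1 : ∑ p ∈ antidiagonal n, P p.1 (∑ q ∈ antidiagonal p.2, m q.1 (m q.2 x y) z) =
      ∑ p ∈ antidiagonal n, ∑ q ∈ antidiagonal p.1, (P q.1 x * P q.2 y) * P p.2 z := by
    calc ∑ p ∈ antidiagonal n, P p.1 (∑ q ∈ antidiagonal p.2, m q.1 (m q.2 x y) z)
        = ∑ p ∈ antidiagonal n, ∑ q ∈ antidiagonal p.2, P p.1 (m q.1 (m q.2 x y) z) :=
          Finset.sum_congr rfl fun p _ => map_sum _ _ _
      _ = ∑ p ∈ antidiagonal n, ∑ q ∈ antidiagonal p.1, P q.1 (m q.2 (m p.2 x y) z) :=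
          (ad3 n fun i k l => P i (m k (m l x y) z)).symm
      _ = ∑ p ∈ antidiagonal n, ∑ q ∈ antidiagonal p.1, P q.1 (m p.2 x y) * P q.2 z :=
          Finset.sum_congr rfl fun p _ => (ht.pm p.1 (m p.2 x y) z).symm
      _ = ∑ p ∈ antidiagonal n, ∑ q ∈ antidiagonal p.2, P p.1 (m q.2 x y) * P q.1 z :=
          ad3 n fun i k l => P i (m l x y) * P k z
      _ = ∑ p ∈ antidiagonal n, ∑ q ∈ antidiagonal p.2, P p.1 (m q.1 x y) * P q.2 z :=
          Finset.sum_congr rfl fun p _ =>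
            Finset.Nat.sum_antidiagonal_swap (f := fun q : ℕ × ℕ => P p.1 (m q.1 x y) * P q.2 z)
      _ = ∑ p ∈ antidiagonal n, ∑ q ∈ antidiagonal p.1, P q.1 (m q.2 x y) * P p.2 z :=
          (ad3 n fun i l k => P i (m l x y) * P k z).symm
      _ = ∑ p ∈ antidiagonal n, (∑ q ∈ antidiagonal p.1, P q.1 (m q.2 x y)) * P p.2 z :=
          Finset.sum_congr rfl fun p _ => (Finset.sum_mul _ _ _).symm
      _ = ∑ p ∈ antidiagonal n, (∑ q ∈ antidiagonal p.1, P q.1 x * P q.2 y) * P p.2 z :=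
          Finset.sum_congr rfl fun p _ => by rw [ht.pm p.1 x y]
      _ = _ := Finset.sum_congr rfl fun p _ => Finset.sum_mul _ _ _
  have h2 : ∑ p ∈ antidiagonal n, P p.1 (∑ q ∈ antidiagonal p.2, m q.1 x (m q.2 y z)) =
      ∑ p ∈ antidiagonal n, ∑ q ∈ antidiagonal p.2, P p.1 x * (P q.1 y * P q.2 z) := by
    calc ∑ p ∈ antidiagonal n, P p.1 (∑ q ∈ antidiagonal p.2, m q.1 x (m q.2 y z))
        = ∑ p ∈ antidiagonal n, ∑ q ∈ antidiagonal p.2, P p.1 (m q.1 x (m q.2 y z)) :=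
          Finset.sum_congr rfl fun p _ => map_sum _ _ _
      _ = ∑ p ∈ antidiagonal n, ∑ q ∈ antidiagonal p.1, P q.1 (m q.2 x (m p.2 y z)) :=
          (ad3 n fun i k l => P i (m k x (m l y z))).symm
      _ = ∑ p ∈ antidiagonal n, ∑ q ∈ antidiagonal p.1, P q.1 x * P q.2 (m p.2 y z) :=
          Finset.sum_congr rfl fun p _ => (ht.pm p.1 x (m p.2 y z)).symm
      _ = ∑ p ∈ antidiagonal n, ∑ q ∈ antidiagonal p.2, P p.1 x * P q.1 (m q.2 y z) :=
          ad3 n fun i k l => P i x * P k (m l y z)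
      _ = ∑ p ∈ antidiagonal n, P p.1 x * ∑ q ∈ antidiagonal p.2, P q.1 (m q.2 y z) :=
          Finset.sum_congr rfl fun p _ => (Finset.mul_sum _ _ _).symm
      _ = ∑ p ∈ antidiagonal n, P p.1 x * ∑ q ∈ antidiagonal p.2, P q.1 y * P q.2 z :=
          Finset.sum_congr rfl fun p _ => by rw [ht.pm p.2 y z]
      _ = _ := Finset.sum_congr rfl fun p _ => Finset.mul_sum _ _ _
  show ∑ p ∈ antidiagonal n, P p.1 (∑ q ∈ antidiagonal p.2, m q.1 (m q.2 x y) z) =
    ∑ p ∈ antidiagonal n, P p.1 (∑ q ∈ antidiagonal p.2, m q.1 x (m q.2 y z))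
  rw [h1, h2]
  have h3 := ad3 n fun i k l => (P i x * P k y) * P l z
  rw [h3]
  exact Finset.sum_congr rfl fun p _ => Finset.sum_congr rfl fun q _ => mul_assoc _ _ _

theorem tr_wl (ht : Trv β W P m) (n : ℕ) (w : V) (hw : w ∈ W) (x y : B) :
    m n (β w * x) y = β w * m n x y := by
  refine inj_seq (P := P) (e := fun n => m n (β w * x) y) (e' := fun n => β w * m n x y)
    ht.p0 ?_ n
  intro n
  show ∑ p ∈ antidiagonal n, P p.1 (m p.2 (β w * x) y) =
    ∑ p ∈ antidiagonal n, P p.1 (β w * m p.2 x y)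
  have h1 : ∑ p ∈ antidiagonal n, P p.1 (β w * m p.2 x y) =
      ∑ p ∈ antidiagonal n, β w * P p.1 (m p.2 x y) :=
    Finset.sum_congr rfl fun p _ => (ht.pw p.1 w hw (m p.2 x y)).1
  rw [← ht.pm n (β w * x) y, h1, ← Finset.mul_sum, ← ht.pm n x y, Finset.mul_sum]
  refine Finset.sum_congr rfl fun p _ => ?_
  rw [(ht.pw p.1 w hw x).1, mul_assoc]

theorem tr_wm (ht : Trv β W P m) (n : ℕ) (w : V) (hw : w ∈ W) (x y : B) :
    m n (x * β w) y = m n x (β w * y) := by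
  refine inj_seq (P := P) (e := fun n => m n (x * β w) y) (e' := fun n => m n x (β w * y))
    ht.p0 ?_ n
  intro n
  show ∑ p ∈ antidiagonal n, P p.1 (m p.2 (x * β w) y) =
    ∑ p ∈ antidiagonal n, P p.1 (m p.2 x (β w * y))
  rw [← ht.pm n (x * β w) y, ← ht.pm n x (β w * y)]
  refine Finset.sum_congr rfl fun p _ => ?_
  rw [(ht.pw p.1 w hw x).2, (ht.pw p.2 w hw y).1, mul_assoc]

theorem tr_wr (ht : Trv β W P m) (n : ℕ) (w : V) (hw : w ∈ W) (x y : B) :
    m n x (y * β w) = m n x y * β w := by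
  refine inj_seq (P := P) (e := fun n => m n x (y * β w)) (e' := fun n => m n x y * β w)
    ht.p0 ?_ n
  intro n
  show ∑ p ∈ antidiagonal n, P p.1 (m p.2 x (y * β w)) =
    ∑ p ∈ antidiagonal n, P p.1 (m p.2 x y * β w)
  have h1 : ∑ p ∈ antidiagonal n, P p.1 (m p.2 x y * β w) =
      ∑ p ∈ antidiagonal n, P p.1 (m p.2 x y) * β w :=
    Finset.sum_congr rfl fun p _ => (ht.pw p.1 w hw (m p.2 x y)).2
  rw [← ht.pm n x (y * β w), h1, ← Finset.sum_mul, ← ht.pm n x y, Finset.sum_mul]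
  refine Finset.sum_congr rfl fun p _ => ?_
  rw [(ht.pw p.2 w hw y).2, mul_assoc]

theorem tr_P1 (ht : Trv β W P m) (n : ℕ) : P n 1 = if n = 0 then 1 else 0 := by
  cases n with
  | zero => rw [ht.p0]; rfl
  | succ n => rw [ht.p1]; rfl

theorem sum_fst (n : ℕ) (F : ℕ → B) :
    ∑ p ∈ antidiagonal n, (if p.1 = 0 then (1 : B) else 0) * F p.2 = F n := by
  have hm : ((0, n) : ℕ × ℕ) ∈ antidiagonal n := by
    rw [Finset.HasAntidiagonal.mem_antidiagonal]
    exact zero_add n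
  rw [Finset.sum_eq_single_of_mem (0, n) hm]
  · rw [if_pos rfl, one_mul]
  · rintro ⟨a, b⟩ hp hne
    rw [Finset.HasAntidiagonal.mem_antidiagonal] at hp
    have h1 : a ≠ 0 := by
      rintro rfl
      exact hne (Prod.ext rfl ((zero_add b).symm.trans hp))
    rw [if_neg h1, zero_mul]

theorem sum_snd (n : ℕ) (F : ℕ → B) :
    ∑ p ∈ antidiagonal n, F p.1 * (if p.2 = 0 then (1 : B) else 0) = F n := by
  have hm : ((n, 0) : ℕ × ℕ) ∈ antidiagonal n := by
    rw [Finset.HasAntidiagonal.mem_antidiagonal]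
    exact add_zero n
  rw [Finset.sum_eq_single_of_mem (n, 0) hm]
  · rw [if_pos rfl, mul_one]
  · rintro ⟨a, b⟩ hp hne
    rw [Finset.HasAntidiagonal.mem_antidiagonal] at hp
    have h1 : b ≠ 0 := by
      rintro rfl
      exact hne (Prod.ext ((add_zero a).symm.trans hp) rfl)
    rw [if_neg h1, mul_zero]

theorem sum_P (n : ℕ) (P : ℕ → (B →ₗ[K] B)) (y : B) :
    ∑ p ∈ antidiagonal n, P p.1 (if p.2 = 0 then y else 0) = P n y := by
  have hm : ((n, 0) : ℕ × ℕ) ∈ antidiagonal n := by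
    rw [Finset.HasAntidiagonal.mem_antidiagonal]
    exact add_zero n
  rw [Finset.sum_eq_single_of_mem (n, 0) hm]
  · rw [if_pos rfl]
  · rintro ⟨a, b⟩ hp hne
    rw [Finset.HasAntidiagonal.mem_antidiagonal] at hp
    have h1 : b ≠ 0 := by
      rintro rfl
      exact hne (Prod.ext ((add_zero a).symm.trans hp) rfl)
    rw [if_neg h1, map_zero]

theorem tr_n1 (ht : Trv β W P m) (n : ℕ) (y : B) : m (n + 1) 1 y = 0 := by
  have h := inj_seq (P := P) (e := fun n => m n 1 y) (e' := fun n => if n = 0 then y else 0)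
    ht.p0 (fun n => ?_) (n + 1)
  · exact h
  · show ∑ p ∈ antidiagonal n, P p.1 (m p.2 1 y) =
      ∑ p ∈ antidiagonal n, P p.1 (if p.2 = 0 then y else 0)
    rw [← ht.pm n 1 y, sum_P]
    simp only [tr_P1 ht]
    exact sum_fst n fun j => P j y

theorem tr_n2 (ht : Trv β W P m) (n : ℕ) (y : B) : m (n + 1) y 1 = 0 := by
  have h := inj_seq (P := P) (e := fun n => m n y 1) (e' := fun n => if n = 0 then y else 0)
    ht.p0 (fun n => ?_) (n + 1)
  · exact h
  · show ∑ p ∈ antidiagonal n, P p.1 (m p.2 y 1) =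
      ∑ p ∈ antidiagonal n, P p.1 (if p.2 = 0 then y else 0)
    rw [← ht.pm n y 1, sum_P]
    simp only [tr_P1 ht]
    exact sum_snd n fun j => P j y

end

theorem tra : TraStmt := by
  intro K V B _ _ _ _ β W P m ht
  refine ⟨⟨⟨m, tr_m0 ht, tr_ass ht, fun n w x y => tr_wl ht n w.1 w.2 x y,
    fun n w x y => tr_wm ht n w.1 w.2 x y, fun n w x y => tr_wr ht n w.1 w.2 x y,
    tr_n1 ht, tr_n2 ht⟩, rfl⟩, ?_, ?_⟩
  · intro n w hw x y
    exact ⟨tr_wl ht n w hw x y, tr_wm ht n w hw x y, tr_wr ht n w hw x y⟩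
  · intro n
    exact ⟨tr_n1 ht n, tr_n2 ht n⟩

end Pool.Agent.PSS.H92
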