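import Pool.Agent.PSS.StmtsS1d
import Pool.Agent.Helper92_PSS.TRA

/-!
# Squad PSS, row FMX: the symmetric form of a deformation
-/

set_option autoImplicit false

open scoped BigOperators TensorProduct

noncomputable section

namespace Pool.Agent.PSS.H92

open Finset
open Dm (cst)

section
variable {k W A : Type} [CommRing k] [Group W] [Ring A] [Algebra k A] {om : W →* A}
  (D : Dm k om)

/-- the coefficient of degree `n` of the product of constants under a linear form -/
def QQ (τ : ℕ → (A →ₗ[k] k)) (n : ℕ) : A →ₗ[k] A →ₗ[k] k :=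
  ∑ p ∈ antidiagonal n, (D.m p.2).compr₂ (τ p.1)

theorem QQ_apply (τ : ℕ → (A →ₗ[k] k)) (n : ℕ) (a b : A) :
    QQ D τ n a b = ∑ p ∈ antidiagonal n, τ p.1 (D.m p.2 a b) := by
  unfold QQ
  rw [LinearMap.sum_apply, LinearMap.sum_apply]
  rfl

theorem QQ_congr {τ τ' : ℕ → (A →ₗ[k] k)} {n : ℕ} (h : ∀ i ≤ n, τ i = τ' i) :
    QQ D τ n = QQ D τ' n := by
  unfold QQ
  refine Finset.sum_congr rfl fun p hp => ?_
  rw [Finset.HasAntidiagonal.mem_antidiagonal] at hp
  rw [h p.1 (by omega)]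

/-- the two bracketings -/
theorem QQ_ass (τ : ℕ → (A →ₗ[k] k)) (n : ℕ) (a b c : A) :
    ∑ p ∈ antidiagonal n, QQ D τ p.1 (D.m p.2 a b) c =
      ∑ p ∈ antidiagonal n, QQ D τ p.1 a (D.m p.2 b c) := by
  calc ∑ p ∈ antidiagonal n, QQ D τ p.1 (D.m p.2 a b) c
      = ∑ p ∈ antidiagonal n, ∑ q ∈ antidiagonal p.1, τ q.1 (D.m q.2 (D.m p.2 a b) c) :=
        Finset.sum_congr rfl fun p _ => QQ_apply D τ _ _ _
    _ = ∑ p ∈ antidiagonal n, ∑ q ∈ antidiagonal p.2, τ p.1 (D.m q.1 (D.m q.2 a b) c) :=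
        ad3 n fun i j l => τ i (D.m j (D.m l a b) c)
    _ = ∑ p ∈ antidiagonal n, τ p.1 (∑ q ∈ antidiagonal p.2, D.m q.1 (D.m q.2 a b) c) :=
        Finset.sum_congr rfl fun p _ => (map_sum _ _ _).symm
    _ = ∑ p ∈ antidiagonal n, τ p.1 (∑ q ∈ antidiagonal p.2, D.m q.1 a (D.m q.2 b c)) :=
        Finset.sum_congr rfl fun p _ => by rw [D.ass]
    _ = ∑ p ∈ antidiagonal n, ∑ q ∈ antidiagonal p.2, τ p.1 (D.m q.1 a (D.m q.2 b c)) :=
        Finset.sum_congr rfl fun p _ => map_sum _ _ _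
    _ = ∑ p ∈ antidiagonal n, ∑ q ∈ antidiagonal p.1, τ q.1 (D.m q.2 a (D.m p.2 b c)) :=
        (ad3 n fun i j l => τ i (D.m j a (D.m l b c))).symm
    _ = ∑ p ∈ antidiagonal n, QQ D τ p.1 a (D.m p.2 b c) :=
        Finset.sum_congr rfl fun p _ => (QQ_apply D τ _ _ _).symm

/-- symmetric in degree `n` -/
def Sy (τ : ℕ → (A →ₗ[k] k)) (n : ℕ) : Prop := ∀ a b, QQ D τ n a b = QQ D τ n b a

theorem QQ_cyc {τ : ℕ → (A →ₗ[k] k)} {N : ℕ} (h : ∀ n ≤ N, Sy D τ n) (a b c : A) :
    ∑ p ∈ antidiagonal (N + 1), QQ D τ p.1 (D.m p.2 a b) c =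
      (∑ p ∈ antidiagonal (N + 1), QQ D τ p.1 (D.m p.2 c a) b) +
        (QQ D τ (N + 1) (a * b) c - QQ D τ (N + 1) c (a * b)) := by
  rw [QQ_ass D τ (N + 1) c a b]
  have hm : ((N + 1, 0) : ℕ × ℕ) ∈ antidiagonal (N + 1) := by
    rw [Finset.HasAntidiagonal.mem_antidiagonal]
    exact add_zero _
  have h1 : ∑ p ∈ antidiagonal (N + 1), (QQ D τ p.1 (D.m p.2 a b) c -
      QQ D τ p.1 c (D.m p.2 a b)) =
      QQ D τ (N + 1) (a * b) c - QQ D τ (N + 1) c (a * b) := by
    rw [Finset.sum_eq_single_of_mem (N + 1, 0) hm]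
    · show QQ D τ (N + 1) (D.m 0 a b) c - QQ D τ (N + 1) c (D.m 0 a b) = _
      rw [D.m0]
    · rintro ⟨i, j⟩ hp hne
      rw [Finset.HasAntidiagonal.mem_antidiagonal] at hp
      have h2 : i ≤ N := by
        by_contra hlt
        have h3 : i + j = N + 1 := hp
        have h4 : i = N + 1 := by omega
        have h5 : j = 0 := by omega
        exact hne (Prod.ext h4 h5)
      show QQ D τ i (D.m j a b) c - QQ D τ i c (D.m j a b) = 0
      rw [h i h2, sub_self]
  rw [Finset.sum_sub_distrib] at h1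
  rw [← h1]
  abel

end

section
variable {k W A K : Type} [CommRing k] [CommGroup W] [Fintype W] [Ring A] [Algebra k A]
  [Fintype K] {om : W →* A} (D : Dm k om) {lam : A →ₗ[k] k} {x y : K → A}

/-- perfectness for bilinear forms -/
theorem perf (rfe : RfeStmt) (hrf : RF k om lam x y) (dd : A →ₗ[k] A →ₗ[k] k) :
    ∃ δ : A →ₗ[k] A, ∀ a b, dd a b = lam (a * δ b) := by
  obtain ⟨-, hnd, hex⟩ := rfe k W A K om lam x y hrf.sym hrf.e1
  have h1 : ∀ b, ∃ d, ∀ a, dd a b = lam (d * a) := by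
    intro b
    obtain ⟨d, hd⟩ := hex (dd.flip b)
    exact ⟨d, hd⟩
  choose δ hδ using h1
  have huq : ∀ d d' : A, (∀ a, lam (d * a) = lam (d' * a)) → d = d' := by
    intro d d' h
    refine sub_eq_zero.mp (hnd (d - d') fun a => ?_)
    rw [sub_mul, map_sub, h, sub_self]
  refine ⟨{ toFun := δ, map_add' := ?_, map_smul' := ?_ }, ?_⟩
  · intro b b'
    refine huq _ _ fun a => ?_
    rw [← hδ, map_add, add_mul, map_add, ← hδ, ← hδ]
  · intro c b
    refine huq _ _ fun a => ?_
    rw [← hδ, map_smul, RingHom.id_apply, smul_mul_assoc, map_smul, ← hδ]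
  · intro a b
    show dd a b = lam (a * δ b)
    rw [hδ, hrf.sym]

/-- the step of the recursion -/
theorem step_ex (rfe : RfeStmt) (h1p : H1P k om) (hrf : RF k om lam x y)
    {τ : ℕ → (A →ₗ[k] k)} {N : ℕ} (h : ∀ n ≤ N, Sy D τ n) :
    ∃ t : A →ₗ[k] k, Sy D (Function.update τ (N + 1) t) (N + 1) := by
  classical
  set τ0 : ℕ → (A →ₗ[k] k) := Function.update τ (N + 1) 0 with hτ0
  have hne : ∀ (t : A →ₗ[k] k) (i : ℕ), i ≤ N → Function.update τ (N + 1) t i = τ i := by
    intro t i hi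
    rw [Function.update_of_ne (by omega)]
  have h0 : ∀ n ≤ N, Sy D τ0 n := by
    intro n hn a b
    rw [QQ_congr D (τ' := τ) fun i hi => hne 0 i (hi.trans hn)]
    exact h n hn a b
  set dd : A →ₗ[k] A →ₗ[k] k := QQ D τ0 (N + 1) - (QQ D τ0 (N + 1)).flip with hdd
  have hdda : ∀ a b, dd a b = QQ D τ0 (N + 1) a b - QQ D τ0 (N + 1) b a := fun a b => rfl
  have hanti : ∀ a b, dd a b = -dd b a := by
    intro a b
    rw [hdda, hdda, neg_sub]
  have hcyc : ∀ a b c, dd (a * b) c + dd (c * a) b + dd (b * c) a = 0 := by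
    intro a b c
    have e1 := QQ_cyc D h0 a b c
    have e2 := QQ_cyc D h0 c a b
    have e3 := QQ_cyc D h0 b c a
    rw [← hdda] at e1 e2 e3
    have e4 : (∑ p ∈ antidiagonal (N + 1), QQ D τ0 p.1 (D.m p.2 a b) c) =
        (∑ p ∈ antidiagonal (N + 1), QQ D τ0 p.1 (D.m p.2 a b) c) +
          (dd (b * c) a + dd (c * a) b + dd (a * b) c) := by
      conv_lhs => rw [e1, e2, e3]
      abel
    have e5 := (left_eq_add.mp e4)
    rw [← e5]
    abel
  have hzero : ∀ (a : A) (w : W), QQ D τ0 (N + 1) a (om w) = 0 ∧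
      QQ D τ0 (N + 1) (om w) a = 0 := by
    intro a w
    rw [QQ_apply, QQ_apply]
    constructor
    · refine Finset.sum_eq_zero fun p hp => ?_
      rw [Finset.HasAntidiagonal.mem_antidiagonal] at hp
      rcases Nat.eq_zero_or_pos p.2 with h2 | h2
      · have h3 : p.1 = N + 1 := by omega
        rw [h3, hτ0, Function.update_self, LinearMap.zero_apply]
      · obtain ⟨j, hj⟩ := Nat.exists_eq_succ_of_ne_zero h2.ne'
        rw [hj]
        show τ0 p.1 (D.m (j + 1) a (om w)) = 0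
        rw [D.m_om_right, map_zero]
    · refine Finset.sum_eq_zero fun p hp => ?_
      rw [Finset.HasAntidiagonal.mem_antidiagonal] at hp
      rcases Nat.eq_zero_or_pos p.2 with h2 | h2
      · have h3 : p.1 = N + 1 := by omega
        rw [h3, hτ0, Function.update_self, LinearMap.zero_apply]
      · obtain ⟨j, hj⟩ := Nat.exists_eq_succ_of_ne_zero h2.ne'
        rw [hj]
        show τ0 p.1 (D.m (j + 1) (om w) a) = 0
        rw [D.m_om_left, map_zero]
  have hdw : ∀ (a : A) (w : W), dd a (om w) = 0 := by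
    intro a w
    rw [hdda, (hzero a w).1, (hzero a w).2, sub_zero]
  obtain ⟨δ, hδ⟩ := perf rfe hrf dd
  obtain ⟨-, hnd, -⟩ := rfe k W A K om lam x y hrf.sym hrf.e1
  have huq : ∀ d d' : A, (∀ a, lam (a * d) = lam (a * d')) → d = d' := by
    intro d d' h
    refine sub_eq_zero.mp (hnd (d - d') fun a => ?_)
    rw [sub_mul, map_sub, hrf.sym d a, hrf.sym d' a, h, sub_self]
  have hder : ∀ a b, δ (a * b) = δ a * b + a * δ b := by
    intro b c
    refine huq _ _ fun a => ?_
    have e1 := hcyc a b c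
    have e2 : dd a (b * c) = dd (a * b) c + dd (c * a) b := by
      rw [hanti]
      exact (eq_neg_of_add_eq_zero_left e1).symm
    rw [← hδ, e2, hδ, hδ, mul_add, map_add, ← mul_assoc a b (δ c), ← mul_assoc a (δ b) c,
      hrf.sym (a * δ b) c, ← mul_assoc c a (δ b), add_comm]
  have hδw : ∀ w, δ (om w) = 0 := by
    intro w
    refine huq _ _ fun a => ?_
    rw [← hδ, hdw, mul_zero, map_zero]
  obtain ⟨e, -, he⟩ := h1p δ hder hδw
  -- the new form
  set t : A →ₗ[k] k := -(lam ∘ₗ LinearMap.mulRight k e) with ht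
  have hta : ∀ a, t a = -lam (a * e) := fun a => rfl
  refine ⟨t, fun a b => ?_⟩
  have hq : ∀ a b, QQ D (Function.update τ (N + 1) t) (N + 1) a b =
      QQ D τ0 (N + 1) a b + t (a * b) := by
    intro a b
    rw [QQ_apply, QQ_apply]
    have hm : ((N + 1, 0) : ℕ × ℕ) ∈ antidiagonal (N + 1) := by
      rw [Finset.HasAntidiagonal.mem_antidiagonal]
      exact add_zero _
    rw [← Finset.add_sum_erase _ _ hm, ← Finset.add_sum_erase (antidiagonal (N + 1))
      (fun p => τ0 p.1 (D.m p.2 a b)) hm]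
    have h2 : ∑ p ∈ (antidiagonal (N + 1)).erase (N + 1, 0),
        Function.update τ (N + 1) t p.1 (D.m p.2 a b) =
        ∑ p ∈ (antidiagonal (N + 1)).erase (N + 1, 0), τ0 p.1 (D.m p.2 a b) := by
      refine Finset.sum_congr rfl fun p hp => ?_
      obtain ⟨hpne, hp2⟩ := Finset.mem_erase.mp hp
      rw [Finset.HasAntidiagonal.mem_antidiagonal] at hp2
      have h3 : p.1 ≠ N + 1 := by
        intro h4
        exact hpne (Prod.ext h4 (by show p.2 = 0; omega))
      rw [hτ0, Function.update_of_ne h3, Function.update_of_ne h3]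
    rw [h2]
    show Function.update τ (N + 1) t (N + 1) (D.m 0 a b) + _ =
      τ0 (N + 1) (D.m 0 a b) + _ + _
    rw [hτ0, Function.update_self, Function.update_self, LinearMap.zero_apply, D.m0, zero_add,
      add_comm]
  rw [hq, hq, hta, hta]
  have e6 : QQ D τ0 (N + 1) a b - QQ D τ0 (N + 1) b a =
      lam (a * b * e) - lam (b * a * e) := by
    rw [← hdda, hδ, he, mul_sub, map_sub, ← mul_assoc, ← mul_assoc, hrf.sym (a * e) b,
      ← mul_assoc]
  have e7 := sub_eq_iff_eq_add.mp e6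
  rw [e7]
  abel

/-- all the forms -/
theorem exists_forms (rfe : RfeStmt) (h1p : H1P k om) (hrf : RF k om lam x y) :
    ∃ τ : ℕ → (A →ₗ[k] k), τ 0 = lam ∧ ∀ n, Sy D τ n := by
  classical
  let stp : ℕ → (ℕ → (A →ₗ[k] k)) → (ℕ → (A →ₗ[k] k)) := fun N τ =>
    if h : ∃ t : A →ₗ[k] k, Sy D (Function.update τ (N + 1) t) (N + 1) then
      Function.update τ (N + 1) h.choose else τ
  let σ : ℕ → (ℕ → (A →ₗ[k] k)) := fun N =>
    Nat.rec (fun _ => lam) (fun N τ => stp N τ) N
  have hs : ∀ N, σ (N + 1) = stp N (σ N) := fun N => rfl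
  have hstp : ∀ N τ i, i ≤ N → stp N τ i = τ i := by
    intro N τ i hi
    show (if h : ∃ t : A →ₗ[k] k, Sy D (Function.update τ (N + 1) t) (N + 1) then
      Function.update τ (N + 1) h.choose else τ) i = τ i
    split_ifs with h
    · rw [Function.update_of_ne (by omega)]
    · rfl
  have hmain : ∀ N, ∀ n ≤ N, Sy D (σ N) n := by
    intro N
    induction N with
    | zero =>
      intro n hn
      have h0 : n = 0 := by omega
      subst h0
      intro a b
      rw [QQ_apply, QQ_apply, Finset.Nat.antidiagonal_zero, Finset.sum_singleton,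
        Finset.sum_singleton]
      show lam (D.m 0 a b) = lam (D.m 0 b a)
      rw [D.m0, D.m0, hrf.sym]
    | succ N ih =>
      intro n hn
      rcases Nat.lt_or_ge n (N + 1) with hlt | hge
      · intro a b
        rw [QQ_congr D (τ' := σ N) fun i hi => by rw [hs]; exact hstp N _ i (by omega)]
        exact ih n (by omega) a b
      · have h1 : n = N + 1 := by omega
        subst h1
        have h2 := step_ex D rfe h1p hrf ih
        have h3 : σ (N + 1) = Function.update (σ N) (N + 1) h2.choose := by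
          rw [hs]
          show (if h : ∃ t : A →ₗ[k] k, Sy D (Function.update (σ N) (N + 1) t) (N + 1) then
            Function.update (σ N) (N + 1) h.choose else (σ N)) = _
          rw [dif_pos h2]
        rw [h3]
        exact h2.choose_spec
  have hdiag : ∀ N i, i ≤ N → σ N i = σ i i := by
    intro N
    induction N with
    | zero =>
      intro i hi
      have h0 : i = 0 := by omega
      rw [h0]
    | succ N ih =>
      intro i hi
      rcases Nat.lt_or_ge i (N + 1) with hlt | hge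
      · rw [hs, hstp N _ i (by omega)]
        exact ih i (by omega)
      · have h1 : i = N + 1 := by omega
        rw [h1]
  refine ⟨fun i => σ i i, rfl, fun n a b => ?_⟩
  rw [QQ_congr D (τ' := σ n) fun i hi => (hdiag n i hi).symm]
  exact hmain n n le_rfl a b

end

theorem fmx (fn : FunStmt) (rfe : RfeStmt) : FmxStmt := by
  intro k W A K _ _ _ _ _ _ om D lam x y h1p hrf
  obtain ⟨τ, hτ0, hτ⟩ := exists_forms D rfe h1p hrf
  obtain ⟨Λ, hΛ⟩ := (fn k W A om D).1 τ
  have key : ∀ (f g : ℕ → A) (n : ℕ), PowerSeries.coeff n (Λ (D.of f * D.of g)) =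
      ∑ p ∈ antidiagonal n, ∑ q ∈ antidiagonal p.2, QQ D τ p.1 (f q.1) (g q.2) := by
    intro f g n
    rw [← D.of_mul, hΛ]
    calc ∑ p ∈ antidiagonal n, τ p.1 (D.mul f g p.2)
        = ∑ p ∈ antidiagonal n, ∑ q ∈ antidiagonal p.2, ∑ r ∈ antidiagonal q.2,
            τ p.1 (D.m q.1 (f r.1) (g r.2)) := by
          refine Finset.sum_congr rfl fun p _ => ?_
          unfold Dm.mul
          rw [map_sum]
          exact Finset.sum_congr rfl fun q _ => map_sum _ _ _
      _ = ∑ p ∈ antidiagonal n, ∑ q ∈ antidiagonal p.1, ∑ r ∈ antidiagonal p.2,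
            τ q.1 (D.m q.2 (f r.1) (g r.2)) :=
          (ad3 n fun i l v => ∑ r ∈ antidiagonal v, τ i (D.m l (f r.1) (g r.2))).symm
      _ = ∑ p ∈ antidiagonal n, ∑ r ∈ antidiagonal p.2, ∑ q ∈ antidiagonal p.1,
            τ q.1 (D.m q.2 (f r.1) (g r.2)) :=
          Finset.sum_congr rfl fun p _ => Finset.sum_comm
      _ = _ := Finset.sum_congr rfl fun p _ => Finset.sum_congr rfl fun q _ =>
          (QQ_apply D τ _ _ _).symm
  refine ⟨Λ, ?_, ?_⟩
  · intro a b
    rw [← D.of_sq a, ← D.of_sq b]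
    apply PowerSeries.ext
    intro n
    rw [key, key]
    refine Finset.sum_congr rfl fun p _ => ?_
    rw [← Finset.Nat.sum_antidiagonal_swap
      (f := fun q : ℕ × ℕ => QQ D τ p.1 (D.sq b q.1) (D.sq a q.2))]
    exact Finset.sum_congr rfl fun q _ => hτ p.1 _ _
  · intro f
    have h := hΛ f 0
    rw [PowerSeries.coeff_zero_eq_constantCoeff, Finset.Nat.antidiagonal_zero,
      Finset.sum_singleton, hτ0] at h
    exact h

end Pool.Agent.PSS.H92
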