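import Pool.Agent.PSS.StmtsS2

/-!
# The exponent of a generator of a complement
-/

set_option autoImplicit false

namespace Pool.Agent.PSS.S2.H92

open Pool.Agent.PSS

theorem chi : ChiStmt := by
  intro V _ _ W z hc
  have hbot : ∀ v : V, v ∈ Subgroup.zpowers z → v ∈ W → v = 1 := by
    intro v h1 h2
    have h3 : v ∈ Subgroup.zpowers z ⊓ W := ⟨h1, h2⟩
    rw [hc.inf_eq_bot] at h3
    exact Subgroup.mem_bot.mp h3
  have hex : ∀ v : V, ∃ i : ℤ, ∃ w ∈ W, v = z ^ i * w := by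
    intro v
    have h1 : v ∈ Subgroup.zpowers z ⊔ W := by
      rw [hc.sup_eq_top]
      exact Subgroup.mem_top v
    obtain ⟨y, hy, w, hw, h2⟩ := Subgroup.mem_sup.mp h1
    obtain ⟨i, rfl⟩ := Subgroup.mem_zpowers_iff.mp hy
    exact ⟨i, w, hw, h2.symm⟩
  have hzero : ∀ i : ℤ, z ^ i ∈ W → (i : ZMod (orderOf z)) = 0 := by
    intro i hi
    have h1 : z ^ i = 1 := hbot _ (Subgroup.zpow_mem_zpowers z i) hi
    exact (ZMod.intCast_zmod_eq_zero_iff_dvd i (orderOf z)).mpr (orderOf_dvd_iff_zpow_eq_one.mpr h1)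
  have key : ∀ (i j : ℤ) (w w' : V), w ∈ W → w' ∈ W → z ^ i * w = z ^ j * w' →
      (i : ZMod (orderOf z)) = (j : ZMod (orderOf z)) := by
    intro i j w w' hw hw' h
    have h1 : z ^ (i - j) ∈ W := by
      have h2 : z ^ (i - j) = w' * w⁻¹ := by
        rw [zpow_sub]
        rw [mul_inv_eq_iff_eq_mul, mul_assoc, mul_comm w⁻¹, ← mul_assoc, eq_mul_inv_iff_mul_eq, h,
          mul_comm]
      rw [h2]
      exact W.mul_mem hw' (W.inv_mem hw)
    have h3 := hzero (i - j) h1
    rw [Int.cast_sub, sub_eq_zero] at h3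
    exact h3
  choose i w hw hv using hex
  refine ⟨fun v => (i v : ZMod (orderOf z)), ?_, ?_, ?_⟩
  · intro u v
    have h1 : z ^ i (u * v) * w (u * v) = z ^ (i u + i v) * (w u * w v) := by
      rw [← hv (u * v), zpow_add]
      conv_lhs => rw [hv u, hv v]
      exact mul_mul_mul_comm _ _ _ _
    have h2 := key _ _ _ _ (hw _) (W.mul_mem (hw u) (hw v)) h1
    show (i (u * v) : ZMod (orderOf z)) = i u + i v
    rw [h2, Int.cast_add]
  · have h1 : z ^ i z * w z = z ^ (1 : ℤ) * 1 := by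
      rw [← hv z, zpow_one, mul_one]
    have h2 := key _ _ _ _ (hw _) W.one_mem h1
    show (i z : ZMod (orderOf z)) = 1
    rw [h2, Int.cast_one]
  · intro v
    show (i v : ZMod (orderOf z)) = 0 ↔ v ∈ W
    constructor
    · intro h
      have h1 := (ZMod.intCast_zmod_eq_zero_iff_dvd _ _).mp h
      have h2 : z ^ i v = 1 := orderOf_dvd_iff_zpow_eq_one.mp h1
      rw [hv v, h2, one_mul]
      exact hw v
    · intro h
      have h1 : z ^ i v * w v = z ^ (0 : ℤ) * v := by
        rw [← hv v, zpow_zero, one_mul]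
      have h2 := key _ _ _ _ (hw _) h h1
      rw [h2, Int.cast_zero]

end Pool.Agent.PSS.S2.H92
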