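import Pool.Agent.PSS.StmtsS1e

/-!
# Squad PSS, row RED: reduction of the form and of the dual families
-/

set_option autoImplicit false

open scoped BigOperators TensorProduct

noncomputable section

namespace Pool.Agent.PSS.H92

open Pool.Agent.PFD.D2 (Cdv FibG)
open Finset
open Dm (cst)

/-- a linear form modulo `π` -/
theorem red_form {R F A A₀ : Type} [CommRing R] [Field F] [Ring A] [Algebra R A] [Ring A₀]
    [Algebra F A₀] (cv : Cdv R F) (f : FibG A A₀ cv) (t : A →ₗ[R] R) :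
    ∃ t₀ : A₀ →ₗ[F] F, ∀ a, t₀ (f.q a) = cv.κ (t a) := by
  have hπ : cv.κ cv.π = 0 := (cv.ker cv.π).mpr ⟨1, (mul_one _).symm⟩
  have hsm : ∀ (r : R) (a : A), f.q (r • a) = cv.κ r • f.q a := by
    intro r a
    rw [Algebra.smul_def, map_mul, f.sc, Algebra.smul_def]
  have hw : ∀ a a' : A, f.q a = f.q a' → cv.κ (t a) = cv.κ (t a') := by
    intro a a' h
    have h1 : f.q (a - a') = 0 := by rw [map_sub, h, sub_self]
    obtain ⟨d, hd⟩ := f.ker _ h1
    have h2 : a = a' + cv.π • d := by rw [← hd, add_sub_cancel]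
    rw [h2, map_add, map_smul, smul_eq_mul, map_add, map_mul, hπ, zero_mul, add_zero]
  choose s hs using f.surj
  refine ⟨{ toFun := fun a => cv.κ (t (s a)), map_add' := ?_, map_smul' := ?_ }, ?_⟩
  · intro a b
    rw [← map_add, ← map_add]
    refine hw _ _ ?_
    rw [map_add, hs, hs, hs]
  · intro c a
    obtain ⟨r, rfl⟩ := cv.surj c
    rw [RingHom.id_apply, smul_eq_mul, ← map_mul, ← smul_eq_mul, ← map_smul]
    refine hw _ _ ?_
    rw [hsm, hs, hs]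
  · intro a
    exact hw _ _ (hs _)

theorem red (fn : FunStmt) (rmp : RmpStmt) : RedStmt := by
  intro R F V A A₀ κ' _ _ _ _ _ _ _ _ W _ α cv f α₀ D D₀ Λ x' y' hα hm hrf
  obtain ⟨ψ, hψ, hψs, hψw, hψsur, -⟩ := rmp R F W A A₀ (aw α W) (aw α₀ W) D D₀ f.q cv.κ f.sc
    (fun w => hα w) hm
  have hsur : Function.Surjective ψ := hψsur f.surj
  obtain ⟨t, ht⟩ := (fn R W A (aw α W) D).2 Λ
  choose t₀ ht₀ using fun n => red_form cv f (t n)
  obtain ⟨Λ₀, hΛ₀⟩ := (fn F W A₀ (aw α₀ W) D₀).1 t₀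
  have hΛ : ∀ a, Λ₀ (ψ a) = PowerSeries.map cv.κ (Λ a) := by
    intro a
    ext n
    rw [PowerSeries.coeff_map, ← D.of_sq a, hψ, hΛ₀, ht, map_sum]
    exact Finset.sum_congr rfl fun p _ => ht₀ _ _
  refine ⟨ψ, Λ₀, hψ, hψw, hsur, hΛ, ?_, ?_, ?_⟩
  · intro a₀ b₀
    obtain ⟨a, rfl⟩ := hsur a₀
    obtain ⟨b, rfl⟩ := hsur b₀
    rw [← map_mul, ← map_mul, hΛ, hΛ, hrf.sym]
  · intro a₀
    obtain ⟨a, rfl⟩ := hsur a₀
    conv_rhs => rw [← hrf.e1 a]
    rw [map_sum]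
    refine Finset.sum_congr rfl fun k _ => ?_
    rw [map_sum]
    refine Finset.sum_congr rfl fun v _ => ?_
    rw [hψs, map_mul ψ (x' k), hψw, ← hΛ, map_mul ψ, map_mul ψ, hψw]
  · intro a₀
    obtain ⟨a, rfl⟩ := hsur a₀
    conv_rhs => rw [← hrf.e2 a]
    rw [map_sum]
    refine Finset.sum_congr rfl fun k _ => ?_
    rw [map_sum]
    refine Finset.sum_congr rfl fun v _ => ?_
    rw [hψs, map_mul ψ _ (y' k), hψw, ← hΛ, map_mul ψ, map_mul ψ, hψw]

end Pool.Agent.PSS.H92
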